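import Pool.Agent.N971.B15.Bil
import Pool.Agent.N970.Sgn.Sgp
import Pool.Agent.N871.P15G.C2b

/-!
# BILJ15n: the pairs of vectors of the same norm `A l`, and the result
-/

set_option autoImplicit false
set_option linter.unusedSectionVars false

namespace Pool.Agent.N971.B15

open Finset
open Pool.Agent.N969.P15 (V3 tw tb Ev)
open Pool.Agent.N877.P21 (ip vec cp)
open Pool.Agent.N844.P17G (Iso sig)
open Pool.Agent.N970.Sgn
open Pool.Agent.N969.P17G (sgp sgnE)
open Pool.Agent.N973.P15G (O6 Sp5 Ng Aii l1 sg P V)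
open Pool.Agent.N218.P21 (mem_vec)
open Pool.Agent.N969.RQ (cp5 R15 Un sgd sj o3 Fd nn S_BILJ15n)
open Pool.Agent.N871.G21 (FF FF_of Fn_mul eT_odd hl M2_dt Fn_two Fn_odd)
open Pool.Agent.N871.G15 (nv_or main_m main_2 eS_eq Fs dl dl_sq l1_val sg_eq Ps_Fd Ps3_inert
  Ps5_split Q' Pch)
open Pool.Agent.N833.P21 (L2 M2)
open Pool.Agent.N295.P15 (Ff)
open Pool.Agent.N295.P15.E (eT kq eT_sq pf_prime pf_dvd)
open Pool.Agent.N877.P21G (Fn)

/-- the signs at the primes of `A` and the sign at the prime `l`, `n = A l`, `0 < T < n` -/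
theorem sgnE_sgp15 {A l : ℕ} (hA : A = 1 ∨ Fd A) (hl : l.Prime) (hl4 : l % 4 = 3)
    (hcop : Nat.Coprime A l) {S T : ℕ} (hS : S ≠ 0) (hT : T ≠ 0) (hST : S + T = A * l)
    (h3 : 3 ∣ A → ¬ 3 ∣ T) (h5 : 5 ∣ A → ¬ 5 ∣ T)
    (hne : L2 (A * l) S T * Fs (A * l) S T ≠ 0) (hl3 : l ≠ 3) (hl5 : l ≠ 5) :
    sgnE 1 A (A * l) T = dl (A * l) T * sgp 1 (A * l) l T := by
  have hFl : Fn l := Or.inl ⟨hl.squarefree, hl4⟩
  have h2 : l ≠ 2 := by rintro rfl; omega
  obtain ⟨hF, hk⟩ := Fn_mul hA hFl hcop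
  have hFF := FF_of hF
  have hST1 : S + T = 1 * (A * l) := by rw [one_mul]; exact hST
  have e1 := main_m hA hFl hcop (c := 1) (Or.inl rfl) hS hT hST1 h3 h5
  have e2 := mul_right_cancel₀ hne e1
  rw [hl.primeFactors, prod_singleton] at e2
  have hF' : ∀ q ∈ Q' (A * l) S T, Ff (A * l) S T q ≠ 0 := by
    rcases nv_or (A * l) S T with ⟨h, _⟩ | ⟨h, _⟩
    · exact h
    · exact absurd h hne
  have hlm : l ∈ (A * l).primeFactors.erase 2 :=
    mem_erase.2 ⟨h2, Nat.mem_primeFactors.2 ⟨hl, dvd_mul_left _ _, hFF.n0⟩⟩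
  have e3 := eT_odd hFF (T := T) (k := 1) hT (Or.inl rfl) (by omega) hlm (fun _ _ => by
    have e4 : 1 * (A * l) - T = S := by omega
    rw [e4, eS_eq hFF hS hT hST1 hF' hlm hl3 hl5, eT_sq hl hT]
    norm_num)
  have e5 : kq (A * l) l = -1 := by
    unfold kq
    rw [if_neg h2, ZMod.χ₄_nat_three_mod_four hl4]
  rw [e3, e5] at e2
  have e6 := dl_sq (A * l) T
  linear_combination (-(sgnE 1 A (A * l) T)) * e6 + dl (A * l) T * e2

/-- the number of pairs -/
theorem cp_l1 {n n2 : ℕ} {b : ℤ} {D : ℕ} (hn : Fn n) (h3 : n % 3 = 1) (h4 : 2 ∣ n → 4 ∣ n2)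
    (hD : 0 < D) (hDD : (D : ℤ) = n * n2 - b ^ 2) : (cp n b n2 : ℤ) = 12 * l1 n b D := by
  by_cases h2 : 2 ∣ n
  · have hE : Ev n := Fn_two hn h2
    rw [Pool.Agent.N878.PC21.t_PCE n n2 b D hE h3 (h4 h2) hD hDD]
    unfold l1 Pool.Agent.N877.P21.locE
    rw [if_pos h2]
  · obtain ⟨hs, h34⟩ := Fn_odd hn h2
    rw [Pool.Agent.N878.PC21.t_PC n n2 b D hs h34 (by omega) hD hDD]
    unfold l1 Pool.Agent.N877.P21.loc
    rw [if_neg h2]

/-- the densities do not vanish: the factors of the divisor sums do not vanish -/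
theorem ne_of_l1 {n S T : ℕ} (hn : Fn n) (h3 : n % 3 = 1) (h5 : Sp5 n) (hS : S ≠ 0) (hT : T ≠ 0)
    (hST : S + T = n) (hL : l1 n (2 * T - (n : ℕ)) (4 * S * T) ≠ 0) :
    L2 n S T * Fs n S T ≠ 0 ∧ Odd (S.factorization 3 + T.factorization 3) := by
  have hFF := FF_of hn
  obtain ⟨n3, P3⟩ := Ps3_inert hFF h3
  obtain ⟨n5, P5⟩ := Ps5_split hFF h5
  have P3' : Pool.Agent.N295.P15.E.Ps n 3 = -1 := P3
  have P5' : Pool.Agent.N295.P15.E.Ps n 5 = 1 := P5
  have hv := l1_val (b := 2 * T - (n : ℕ)) hFF hS hT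
  have hodd : Odd (S.factorization 3 + T.factorization 3) := by
    by_contra h
    rw [if_neg h] at hv
    exact hL hv
  rw [if_pos hodd, ← M2_dt hn hS hT (by rw [one_mul]; exact hST)] at hv
  have hMF : M2 n S T * Fs n S T ≠ 0 := by
    intro h0
    apply hL
    rw [hv]
    linear_combination (Ff n S T 5) * h0
  have key := main_2 hn (c := 1) (Or.inl rfl) hS hT (by rw [one_mul]; exact hST)
  have h3' : hl n S T 3 = 1 := if_neg n3
  have h5' : hl n S T 5 = 1 := if_neg n5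
  have hdl : dl n S * dl n T = -1 := by
    unfold dl
    rw [if_neg n3, if_neg n5, if_neg n3, if_neg n5, P3', P5', one_pow, one_pow, mul_one, mul_one,
      ← pow_add]
    exact hodd.neg_one_pow
  rw [h3', h5', hdl] at key
  refine ⟨fun h0 => hMF ?_, hodd⟩
  rw [h0] at key
  linarith

theorem dl_val {n T : ℕ} (hn : Fn n) (h3 : n % 3 = 1) (h5 : Sp5 n) :
    dl n T = (-1) ^ T.factorization 3 := by
  have hFF := FF_of hn
  obtain ⟨n3, P3⟩ := Ps3_inert hFF h3
  obtain ⟨n5, P5⟩ := Ps5_split hFF h5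
  have P3' : Pool.Agent.N295.P15.E.Ps n 3 = -1 := P3
  have P5' : Pool.Agent.N295.P15.E.Ps n 5 = 1 := P5
  unfold dl
  rw [if_neg n3, if_neg n5, P3', P5', one_pow, mul_one]

/-- the sign of a pair of vectors of norm `A l` -/
theorem sgnE_EE {A l : ℕ} (hl : l.Prime) (hl4 : l % 4 = 3) (hl3 : l % 3 = 2)
    (hl5 : jacobiSym l 5 = -1) (hlA : ¬ l ∣ A) (hA : Aii A) {v w : V3}
    (hv : ip v v = (A * l : ℕ)) (hw : ip w w = (A * l : ℕ)) :
    sgnE 1 A (A * l) (((A * l : ℕ) + ip v w) / 2) = EE l v * EE l w := by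
  have hFl : Fact l.Prime := ⟨hl⟩
  have h2 : l ≠ 2 := by rintro rfl; omega
  have l3 : l ≠ 3 := by rintro rfl; omega
  have l5 : l ≠ 5 := by rintro rfl; norm_num at hl5
  have hK := nK (l := l) h2 l3
  obtain ⟨hA1, hA3, hA5⟩ := hA
  have hAor : A = 1 ∨ Fd A := Ps_Fd hA1
  have hcop : Nat.Coprime A l := ((Nat.Prime.coprime_iff_not_dvd hl).2 hlA).symm
  have hFnl : Fn l := Or.inl ⟨hl.squarefree, hl4⟩
  obtain ⟨hn, -⟩ := Fn_mul hAor hFnl hcop
  have hn3 : (A * l) % 3 = 1 := by rw [Nat.mul_mod, hA3, hl3]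
  have hI : Sp5 (A * l) := by
    rw [← jac5.1]
    push_cast
    rw [jacobiSym.mul_left, (jac5 (n := A)).2.2 hA5, hl5]
    norm_num
  have iv := iso_mul (l := l) frm hlA hv
  have iw := iso_mul (l := l) frm hlA hw
  have j1 : jacobiSym ((A * l : ℕ) : ℤ) 3 = 1 := by
    rw [jacobiSym.mod_left, show ((A * l : ℕ) : ℤ) % ((3 : ℕ) : ℤ) = 1 by push_cast; omega]
    exact jacobiSym.one_left 3
  have j2 : jacobiSym (-((A * l : ℕ) : ℤ)) 3 = -1 := by
    rw [jacobiSym.mod_left, show (-((A * l : ℕ) : ℤ)) % ((3 : ℕ) : ℤ) = 2 by push_cast; omega]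
    norm_num
  have hll : l ∣ A * l := dvd_mul_left _ _
  have hln2 : ¬ l ^ 2 ∣ A * l := by
    intro h
    rw [pow_two] at h
    exact hlA (Nat.dvd_of_mul_dvd_mul_right hl.pos h)
  -- the range of the inner product
  have hcs := cs v w
  rw [hv, hw] at hcs
  have hn0 : (0 : ℤ) < (A * l : ℕ) := by
    have : 0 < A * l := Nat.pos_of_ne_zero (FF_of hn).n0
    exact_mod_cast this
  have habs : |ip v w| ≤ (A * l : ℕ) := by
    apply abs_le_of_sq_le_sq _ hn0.le
    rw [pow_two ((A * l : ℕ) : ℤ)]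
    exact hcs
  obtain ⟨hb1, hb2⟩ := abs_le.1 habs
  have h12 := dvd12 v w
  rw [hv, hw] at h12
  -- parity
  have hpar : (2 : ℤ) ∣ (A * l : ℕ) + ip v w := by
    have e1 : ((A * l : ℕ) : ℤ) * (A * l : ℕ) - ip v w ^ 2 =
        ((A * l : ℕ) + ip v w) * ((A * l : ℕ) - ip v w) := by ring
    rw [e1] at h12
    have h5 : (2 : ℤ) ∣ ((A * l : ℕ) + ip v w) * ((A * l : ℕ) - ip v w) :=
      Dvd.dvd.trans (by norm_num) h12
    rcases Int.prime_two.dvd_or_dvd h5 with h | h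
    · exact h
    · have e2 : ((A * l : ℕ) : ℤ) + ip v w = ((A * l : ℕ) - ip v w) + 2 * ip v w := by ring
      rw [e2]
      exact dvd_add h (dvd_mul_right _ _)
  obtain ⟨T, hT⟩ := hpar
  have hT2 : (((A * l : ℕ) : ℤ) + ip v w) / 2 = T := by rw [hT]; omega
  rw [hT2]
  have hT0 : 0 ≤ T := by linarith
  obtain ⟨U, rfl⟩ := Int.eq_ofNat_of_zero_le hT0
  have hUn : U ≤ A * l := by
    have : (U : ℤ) ≤ (A * l : ℕ) := by linarith
    exact_mod_cast this
  -- `E v E w`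
  have hE : EE l v * EE l w = sgp 1 (A * l) l U * jacobiSym (2 * U - (A * l : ℕ)) 3 := by
    have e1 : EE l v * EE l w = (psi ip l v * psi ip l w) * (oo v * oo w) := by
      unfold EE; ring
    have e2 : ip v w = 2 * U - (A * l : ℕ) := by linarith
    rw [e1, oo_mul, psi_mul frm h2 hK iv iw, e2,
      sgp_sig frm h2 hK (k := 1) hll hln2 hl.not_dvd_one hv (by rw [hw]; push_cast; ring) iv iw
        (T := U) (by linear_combination -hT)]
  rw [hE]
  have hjac : ∀ a b : ℤ, (3 : ℤ) ∣ a - b → jacobiSym a 3 = jacobiSym b 3 := fun a b h => by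
    apply jacobiSym.mod_left'
    omega
  rcases Nat.eq_zero_or_pos U with hU0 | hU0
  · subst hU0
    have e3 := sgnE_zero hAor hFnl hcop
    rw [Nat.cast_zero, e3, mul_zero, zero_sub, j2]
    unfold sgp
    rw [if_pos (dvd_zero _), Int.zero_ediv, if_pos (dvd_zero _)]
    have e4 : (-((1 : ℕ) : ℤ)) = -1 := by norm_num
    rw [e4, jacobiSym.at_neg_one (by rw [Nat.odd_iff]; omega), ZMod.χ₄_nat_three_mod_four hl4]
    norm_num
  rcases Nat.eq_or_lt_of_le hUn with hUn | hUn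
  · subst hUn
    have e3 := sgnE_top hAor hFnl hcop
    have e5 : (2 * ((A * l : ℕ) : ℤ) - (A * l : ℕ)) = (A * l : ℕ) := by ring
    rw [e3, e5, j1]
    have e7 : sgp 1 (A * l) l ((A * l : ℕ) : ℤ) = 1 := by
      unfold sgp
      rw [if_pos (by push_cast; exact dvd_mul_left _ _)]
      have hnl : A * l / l = A := Nat.mul_div_cancel _ hl.pos
      have e : ((A * l : ℕ) : ℤ) / l = ((A * l / l : ℕ) : ℤ) := by push_cast; rfl
      have hlAz : ¬ (l : ℤ) ∣ (A : ℤ) := by exact_mod_cast hlA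
      rw [e, hnl, if_neg hlAz]
      exact Pool.Agent.N970.P17G.jac_sq hlAz
    rw [e7]
    norm_num
  -- the main case
  obtain ⟨S, hS⟩ : ∃ S, S + U = A * l := ⟨A * l - U, by omega⟩
  have hS0 : S ≠ 0 := by omega
  have hU' : U ≠ 0 := by omega
  have hip : ip v w = 2 * U - (A * l : ℕ) := by linarith
  have hdet : ((4 * S * U : ℕ) : ℤ) = (A * l : ℕ) * (A * l : ℕ) - (2 * U - (A * l : ℕ)) ^ 2 := by
    rw [← hS]; push_cast; ring
  have h4n : 2 ∣ A * l → 4 ∣ A * l := by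
    intro h
    obtain ⟨m, hm, -⟩ := Fn_two hn h
    exact ⟨m, hm⟩
  have hcount := cp_l1 hn hn3 h4n (b := 2 * U - (A * l : ℕ)) (D := 4 * S * U)
    (by positivity) hdet
  have hLne : l1 (A * l) (2 * U - (A * l : ℕ)) (4 * S * U) ≠ 0 := by
    intro h0
    rw [h0, mul_zero] at hcount
    have hc : cp (A * l : ℕ) (2 * U - (A * l : ℕ)) (A * l : ℕ) = 0 := by exact_mod_cast hcount
    unfold cp at hc
    rw [card_eq_zero] at hc
    have : ((v, w) : V3 × V3) ∈ (∅ : Finset (V3 × V3)) := by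
      rw [← hc, mem_filter, mem_product, mem_vec, mem_vec]
      exact ⟨⟨hv, hw⟩, hip⟩
    exact absurd this (notMem_empty _)
  obtain ⟨hLF, hodd⟩ := ne_of_l1 hn hn3 hI hS0 hU' hS hLne
  have h3A : ¬ 3 ∣ A := by omega
  have h5A : ¬ 5 ∣ A := by omega
  rw [sgnE_sgp15 hAor hl hl4 hcop hS0 hU' hS (fun h => absurd h h3A) (fun h => absurd h h5A) hLF
    l3 l5, dl_val hn hn3 hI, mul_comm]
  congr 1
  by_cases h3U : 3 ∣ U
  · have h3S : S.factorization 3 = 0 := Nat.factorization_eq_zero_of_not_dvd (by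
      intro h
      have := dvd_add h h3U
      rw [hS] at this
      omega)
    rw [h3S, zero_add] at hodd
    rw [hodd.neg_one_pow, hjac (2 * U - (A * l : ℕ)) (-((A * l : ℕ) : ℤ)) (by omega), j2]
  · have h3U' : U.factorization 3 = 0 := Nat.factorization_eq_zero_of_not_dvd h3U
    rw [h3U', pow_zero]
    have h3S : 3 ∣ S := by
      have h1 : 0 < S.factorization 3 := by
        rw [h3U', add_zero] at hodd
        exact hodd.pos
      exact Nat.dvd_of_factorization_pos h1.ne'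
    rw [hjac (2 * U - (A * l : ℕ)) ((A * l : ℕ) : ℤ) (by omega), j1]

/-- **BILJ15n** -/
theorem t_BILJ15n : S_BILJ15n := by
  intro l hl hC
  obtain ⟨hls, h60⟩ := hC
  have hl4 : l % 4 = 3 := by omega
  have hl3 : l % 3 = 2 := by omega
  have hj : jacobiSym l 5 = -1 := (jac5 (n := l)).2.2 (by omega)
  have h2 : l ≠ 2 := by rintro rfl; omega
  refine ⟨Zn l, ?_, ?_⟩
  · intro D d hD hlD hun hsg hd3 hd5
    have hprod : d * (D / d) = D := Nat.mul_div_cancel' hun.1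
    obtain ⟨hFd, hD3, hD5⟩ := hD
    have hj3 : ∀ k : ℕ, jacobiSym k 3 = -1 → k % 3 = 2 := by
      intro k hk
      rw [jacobiSym.mod_left] at hk
      have : k % 3 = 0 ∨ k % 3 = 1 ∨ k % 3 = 2 := by omega
      rcases this with h | h | h
      · have e : (k : ℤ) % ((3 : ℕ) : ℤ) = 0 := by push_cast; omega
        rw [e] at hk; norm_num at hk
      · have e : (k : ℤ) % ((3 : ℕ) : ℤ) = 1 := by push_cast; omega
        rw [e] at hk; norm_num at hk
      · exact h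
    have d3 := hj3 d hd3
    have e3 : D / d % 3 = 2 := by
      have h1 : (d * (D / d)) % 3 = 1 := by rw [hprod]; exact hD3
      rw [Nat.mul_mod, d3] at h1
      have : D / d % 3 < 3 := Nat.mod_lt _ (by norm_num)
      interval_cases h : D / d % 3 <;> omega
    have je : jacobiSym (D / d : ℕ) 5 = -1 := by
      have h1 : jacobiSym (d * (D / d) : ℕ) 5 = 1 := by rw [hprod]; exact hD5
      rw [Nat.cast_mul, jacobiSym.mul_left, hd5] at h1
      linarith
    have hH : HH D d l := ⟨hl, h2, hl3, hl4, hj, ⟨hFd, hD3, hD5⟩, hlD, hun, hsg, d3, e3, hd5, je⟩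
    right
    exact main15 hH
  · intro A hlA hA
    have hA0 : A * l ≠ 0 := by
      have : A ≠ 0 := by rintro rfl; exact hlA (dvd_zero l)
      exact mul_ne_zero this hl.ne_zero
    unfold P Zn
    rw [pow_two, sum_mul_sum]
    refine sum_congr rfl fun v hv => sum_congr rfl fun w hw => ?_
    have hv' := (mem_vec.1 (mem_filter.1 hv).1)
    have hw' := (mem_vec.1 (mem_filter.1 hw).1)
    rw [sg_eq (dvd_mul_right A l) hA0, sgnE_EE hl hl4 hl3 hj hlA hA hv' hw']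

end Pool.Agent.N971.B15
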