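import Pool.Agent.N970.Sgn.Prop
import Pool.Agent.N973.P15G.Lines
import Pool.Agent.N969.RQ.Defs5

/-!
# BILJ15n: the lattice ramified at `3`: the frame, the signs, the common lines modulo `5`
-/

set_option autoImplicit false

namespace Pool.Agent.N971.B15

open Finset
open Pool.Agent.N969.P15 (V3)
open Pool.Agent.N877.P21 (ip vec cp)
open Pool.Agent.N844.P17G (Iso sig)
open Pool.Agent.N970.Sgn
open Pool.Agent.N973.P15G (om om' om_om' om'_om ip_om L6 O6 O6_om O6_zero sum_om ind_pair Sp5)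
open Pool.Agent.N218.P21 (mem_vec)
open Pool.Agent.N969.RQ (cp5)

theorem frm : Frm ip 6 where
  symm := by intro v w; unfold ip; ring
  lin := by
    intro u v w x y
    simp only [ip, Pi.add_apply, Pi.smul_apply, smul_eq_mul]
    ring
  gram := by
    intro u v w
    simp only [ip, det3]
    ring

/-- rotation of norm `3` -/
def nu (v : V3) : V3 := ![v 0, -v 1, -v 2]

theorem om3 (v : V3) : om (om (om v)) = nu v := by
  funext i
  fin_cases i <;> simp [om, nu]

theorem sim_om : Sim ip ip 1 om where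
  iso := by intro v w; rw [ip_om]; ring
  lin := by
    intro x y v w
    funext i
    fin_cases i <;> simp [om] <;> ring

theorem sim_nu : Sim ip ip 1 nu where
  iso := by intro v w; simp [nu, ip]
  lin := by
    intro x y v w
    funext i
    fin_cases i <;> simp [nu] <;> ring

/-- the orientation at `3` -/
def oo (v : V3) : ℤ := jacobiSym (v 1 - v 2) 3

theorem oo_mul (v w : V3) : oo v * oo w = jacobiSym (ip v w) 3 := by
  unfold oo
  rw [← jacobiSym.mul_left]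
  apply jacobiSym.mod_left'
  have e : (v 1 - v 2) * (w 1 - w 2) = ip v w +
      3 * (-(v 0 * w 0) - v 1 * w 1 - v 2 * w 2 - v 1 * w 2 - v 2 * w 1) := by
    unfold ip
    ring
  rw [e]
  simp

theorem oo_om (v : V3) : oo (om v) = - oo v := by
  unfold oo
  have e : jacobiSym (om v 1 - om v 2) 3 = jacobiSym ((-1) * (v 1 - v 2)) 3 := by
    apply jacobiSym.mod_left'
    have e1 : om v 1 - om v 2 = (-1) * (v 1 - v 2) + 3 * (-v 2) := by
      simp only [om, Matrix.cons_val_one, Matrix.cons_val]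
      ring
    rw [e1]
    simp
  rw [e, jacobiSym.mul_left, show jacobiSym (-1) 3 = -1 by norm_num]
  ring

section

variable {l : ℕ} [hl : Fact l.Prime] (h2 : l ≠ 2) (h3 : l ≠ 3)

include h2 h3 in
theorem nK : ¬ (l : ℤ) ∣ 6 := by
  intro h
  have h' : l ∣ 2 * 3 := by exact_mod_cast h
  rcases hl.out.dvd_mul.1 h' with h | h
  · exact h2 ((Nat.prime_dvd_prime_iff_eq hl.out Nat.prime_two).1 h)
  · exact h3 ((Nat.prime_dvd_prime_iff_eq hl.out Nat.prime_three).1 h)

theorem one_ne : ((1 : ℤ) : ZMod l) ≠ 0 := by simp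

include h3 in
theorem three_ne : ((3 : ℤ) : ZMod l) ≠ 0 := by
  rw [Ne, ← dvd_cast]
  intro h
  have h' : l ∣ 3 := by exact_mod_cast h
  exact h3 ((Nat.prime_dvd_prime_iff_eq hl.out Nat.prime_three).1 h')

include h2 h3

/-- the rotation of norm `3` -/
theorem psi_nu {v : V3} (hv : Iso ip l v) : psi ip l (nu v) = jacobiSym 3 l * psi ip l v := by
  rw [psi_sim frm h2 (nK h2 h3) sim_nu one_ne hv]
  have h6 : ((6 : ℤ) : ZMod l) ≠ 0 := by
    rw [Ne, ← dvd_cast]
    exact nK h2 h3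
  have h := sim_sign frm sim_nu h2 (nK h2 h3) one_ne (l := ![1, 0, 0]) (k := 6) (m := -1)
    ⟨0, by simp⟩ h6 (fun v => by
      simp [nu, ip]
      ring) hv
  rw [h, jac_eq]
  congr 1
  refine qc_eq (s := 2 * 3) ?_ (mul_ne_zero (c2 h2) h6) (three_ne h3)
  push_cast
  ring

/-- the rotation of order six -/
theorem psi_om {v : V3} (hv : Iso ip l v) : psi ip l (om v) = jacobiSym 3 l * psi ip l v := by
  have hK := nK h2 h3
  have i1 : Iso ip l (om v) := sim_iso frm frm sim_om h2 hK one_ne hv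
  have i2 : Iso ip l (om (om v)) := sim_iso frm frm sim_om h2 hK one_ne i1
  have a1 := psi_sim frm h2 hK sim_om one_ne hv
  have a2 := psi_sim frm h2 hK sim_om one_ne i1
  have a3 := psi_sim frm h2 hK sim_om one_ne i2
  have c1 := sim_const frm sim_om h2 hK one_ne hv i1
  have c2 := sim_const frm sim_om h2 hK one_ne hv i2
  have s := sig_sq frm h2 hK hv i1
  rw [om3] at c2
  rw [om3, psi_nu h2 h3 hv, ← c2, a2, ← c1, a1] at a3
  rw [a1, a3]
  linear_combination (-(sig ip l v (om v) * psi ip l v)) * s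

end

/-- the sign of a vector -/
noncomputable def EE (l : ℕ) (v : V3) : ℤ := psi ip l v * oo v

/-- the signed sum over the vectors orthogonal to an isotropic line -/
noncomputable def Fi (l n : ℕ) (i : Fin 6) : ℤ :=
  ∑ v ∈ vec (n : ℤ), (if O6 i v then 1 else 0) * EE l v

/-- the signed sum -/
noncomputable def Zn (l n : ℕ) : ℤ := ∑ v ∈ Pool.Agent.N973.P15G.V ((n * l : ℕ) : ℤ), EE l v

theorem Zn_eq (l n : ℕ) : Zn l n = Fi l (n * l) 0 := by
  unfold Zn Fi Pool.Agent.N973.P15G.V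
  rw [sum_filter]
  refine sum_congr rfl fun v _ => ?_
  by_cases h : (5 : ℤ) ∣ v 0 + 2 * v 1 + 2 * v 2
  · rw [if_pos h, if_pos ((O6_zero v).2 h), one_mul]
  · rw [if_neg h, if_neg (fun h' => h ((O6_zero v).1 h')), zero_mul]

section

variable {l : ℕ} [hl : Fact l.Prime] (h2 : l ≠ 2) (h3 : l ≠ 3)

include h2 h3

theorem Fi_succ {n : ℕ} (hn : ∀ v : V3, ip v v = n → Iso ip l v) (h3l : jacobiSym 3 l = 1)
    (i : Fin 6) : Fi l n (i + 1) = - Fi l n i := by
  unfold Fi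
  rw [← sum_om (n : ℤ) (fun v => (if O6 i v then (1 : ℤ) else 0) * EE l v), ← sum_neg_distrib]
  refine sum_congr rfl fun v hv => ?_
  rw [mem_vec] at hv
  unfold EE
  rw [psi_om h2 h3 (hn v hv), oo_om, h3l]
  simp only [O6_om]
  ring

/-- the sum over the lines -/
theorem sum_Fi {n1 n2 : ℕ} (h1 : ∀ v : V3, ip v v = (n1 * l : ℕ) → Iso ip l v)
    (h4 : ∀ v : V3, ip v v = (n2 * l : ℕ) → Iso ip l v) (h3l : jacobiSym 3 l = 1) :
    ∑ i, Fi l (n1 * l) i * Fi l (n2 * l) i = 6 * (Zn l n1 * Zn l n2) := by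
  have s : ∀ i : Fin 6, Fi l (n1 * l) (i + 1) * Fi l (n2 * l) (i + 1) =
      Fi l (n1 * l) i * Fi l (n2 * l) i := by
    intro i
    rw [Fi_succ h2 h3 h1 h3l, Fi_succ h2 h3 h4 h3l]
    ring
  have s0 := s 0
  have s1 := s 1
  have s2 := s 2
  have s3 := s 3
  have s4 := s 4
  simp only [show (0 : Fin 6) + 1 = 1 by decide, show (1 : Fin 6) + 1 = 2 by decide,
    show (2 : Fin 6) + 1 = 3 by decide, show (3 : Fin 6) + 1 = 4 by decide,
    show (4 : Fin 6) + 1 = 5 by decide] at s0 s1 s2 s3 s4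
  rw [Fin.sum_univ_six, s4, s3, s2, s1, s0, Zn_eq, Zn_eq]
  ring

end

/-! ### common lines -/

/-- the number of common lines -/
def cl (v w : V3) : ℤ := ∑ i : Fin 6, (if O6 i v then 1 else 0) * (if O6 i w then 1 else 0)

theorem cl_comm (v w : V3) : cl v w = cl w v := by
  unfold cl
  exact sum_congr rfl fun i _ => mul_comm _ _

theorem det0 {v w : V3} (hv : O6 0 v) (hw : O6 0 w) :
    (5 : ℤ) ∣ ip v v * ip w w - ip v w ^ 2 := by
  rw [O6_zero] at hv hw
  obtain ⟨a, ha⟩ := hv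
  obtain ⟨b, hb⟩ := hw
  have e1 : v 0 = 5 * a - 2 * v 1 - 2 * v 2 := by linarith
  have e2 : w 0 = 5 * b - 2 * w 1 - 2 * w 2 := by linarith
  have key : ∀ (a b x y z u : ℤ), 3 * ((5 * a - 2 * x - 2 * y) * (5 * b - 2 * z - 2 * u)) +
      4 * (x * z) + 4 * (y * u) + 2 * (x * u + y * z) = 5 * (15 * a * b - 6 * a * (z + u) -
        6 * b * (x + y) + 3 * (x * z + y * u + x * u + y * z)) + (x - y) * (z - u) := by
    intro a b x y z u
    ring
  have f1 : ip v v = 5 * (15 * a * a - 6 * a * (v 1 + v 2) - 6 * a * (v 1 + v 2) +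
      3 * (v 1 * v 1 + v 2 * v 2 + v 1 * v 2 + v 2 * v 1)) + (v 1 - v 2) * (v 1 - v 2) := by
    unfold ip
    rw [e1]
    exact key a a (v 1) (v 2) (v 1) (v 2)
  have f2 : ip w w = 5 * (15 * b * b - 6 * b * (w 1 + w 2) - 6 * b * (w 1 + w 2) +
      3 * (w 1 * w 1 + w 2 * w 2 + w 1 * w 2 + w 2 * w 1)) + (w 1 - w 2) * (w 1 - w 2) := by
    unfold ip
    rw [e2]
    exact key b b (w 1) (w 2) (w 1) (w 2)
  have f3 : ip v w = 5 * (15 * a * b - 6 * a * (w 1 + w 2) - 6 * b * (v 1 + v 2) +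
      3 * (v 1 * w 1 + v 2 * w 2 + v 1 * w 2 + v 2 * w 1)) + (v 1 - v 2) * (w 1 - w 2) := by
    unfold ip
    rw [e1, e2]
    exact key a b (v 1) (v 2) (w 1) (w 2)
  rw [f1, f2, f3]
  generalize 15 * a * a - 6 * a * (v 1 + v 2) - 6 * a * (v 1 + v 2) +
      3 * (v 1 * v 1 + v 2 * v 2 + v 1 * v 2 + v 2 * v 1) = X
  generalize 15 * b * b - 6 * b * (w 1 + w 2) - 6 * b * (w 1 + w 2) +
      3 * (w 1 * w 1 + w 2 * w 2 + w 1 * w 2 + w 2 * w 1) = Y
  generalize 15 * a * b - 6 * a * (w 1 + w 2) - 6 * b * (v 1 + v 2) +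
      3 * (v 1 * w 1 + v 2 * w 2 + v 1 * w 2 + v 2 * w 1) = Z
  generalize v 1 - v 2 = p
  generalize w 1 - w 2 = q
  exact ⟨5 * X * Y + X * (q * q) + Y * (p * p) - 5 * Z ^ 2 - 2 * Z * (p * q), by ring⟩

theorem det_succ {i : Fin 6} (h : ∀ v w : V3, O6 i v → O6 i w →
    (5 : ℤ) ∣ ip v v * ip w w - ip v w ^ 2) : ∀ v w : V3, O6 (i + 1) v → O6 (i + 1) w →
    (5 : ℤ) ∣ ip v v * ip w w - ip v w ^ 2 := by
  intro v w hv hw
  have := h (om v) (om w) ((O6_om i v).2 hv) ((O6_om i w).2 hw)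
  rwa [ip_om, ip_om, ip_om] at this

theorem det_all (i : Fin 6) : ∀ v w : V3, O6 i v → O6 i w →
    (5 : ℤ) ∣ ip v v * ip w w - ip v w ^ 2 := by
  have h0 : ∀ v w : V3, O6 0 v → O6 0 w → (5 : ℤ) ∣ ip v v * ip w w - ip v w ^ 2 :=
    fun v w => det0
  have h1 := det_succ h0
  have h2 := det_succ h1
  have h3 := det_succ h2
  have h4 := det_succ h3
  have h5 := det_succ h4
  fin_cases i
  · exact h0
  · exact h1
  · exact h2
  · exact h3
  · exact h4
  · exact h5

theorem cl_eq {n1 n2 : ℕ} {v w : V3} (h2 : Sp5 n2) (hv : ip v v = n1) (hw : ip w w = n2) :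
    cl v w = if (5 : ℤ) ∣ n1 * n2 - ip v w ^ 2 then
      1 + (if ∀ i, (5 : ℤ) ∣ n2 * v i - ip v w * w i then 1 else 0) else 0 := by
  split_ifs with h h'
  · have h7 : (5 : ℤ) ∣ ip v w ^ 2 - n1 * n2 := by
      have := dvd_neg.2 h
      rwa [neg_sub] at this
    have := ind_pair h2 hv hw h7
    rw [if_pos h'] at this
    exact this
  · have h7 : (5 : ℤ) ∣ ip v w ^ 2 - n1 * n2 := by
      have := dvd_neg.2 h
      rwa [neg_sub] at this
    have := ind_pair h2 hv hw h7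
    rw [if_neg h'] at this
    exact this
  · unfold cl
    refine sum_eq_zero fun i _ => ?_
    by_cases h1 : O6 i v
    · by_cases h3 : O6 i w
      · exfalso
        have := det_all i v w h1 h3
        rw [hv, hw] at this
        exact h this
      · rw [if_neg h3, mul_zero]
    · rw [if_neg h1, zero_mul]

/-- the total number of common lines of the pairs with given Gram matrix -/
theorem sum_cl {n1 n2 : ℕ} {b : ℤ} (h2 : Sp5 n2) :
    ∑ q ∈ (vec n1 ×ˢ vec n2).filter (fun q => ip q.1 q.2 = b), cl q.1 q.2 =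
      if (5 : ℤ) ∣ n1 * n2 - b ^ 2 then (cp n1 b n2 : ℤ) + cp5 n1 b n2 else 0 := by
  have e : ∀ q ∈ (vec n1 ×ˢ vec n2).filter (fun q => ip q.1 q.2 = b), cl q.1 q.2 =
      if (5 : ℤ) ∣ n1 * n2 - b ^ 2 then
      1 + (if ∀ i, (5 : ℤ) ∣ n2 * q.1 i - b * q.2 i then 1 else 0) else 0 := by
    intro q hq
    rw [mem_filter, mem_product, mem_vec, mem_vec] at hq
    rw [cl_eq h2 hq.1.1 hq.1.2, hq.2]
  rw [sum_congr rfl e]
  split_ifs with h
  · rw [sum_add_distrib, sum_const, nsmul_eq_mul, mul_one, ← sum_filter, sum_const, nsmul_eq_mul,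
      mul_one, filter_filter]
    rfl
  · exact sum_const_zero

/-- the sum over the lines as a sum over the inner products -/
theorem Fi_pairs {l n1 n2 : ℕ} {s : Finset ℤ}
    (hs : ∀ v w : V3, ip v v = n1 → ip w w = n2 → cl v w ≠ 0 → ip v w ∈ s) :
    ∑ i, Fi l n1 i * Fi l n2 i = ∑ t ∈ s, jacobiSym t 3 *
      ∑ q ∈ (vec (n1 : ℤ) ×ˢ vec (n2 : ℤ)).filter (fun q => ip q.1 q.2 = t),
        psi ip l q.1 * psi ip l q.2 * cl q.1 q.2 := by
  have e1 : ∑ i, Fi l n1 i * Fi l n2 i =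
      ∑ q ∈ vec (n1 : ℤ) ×ˢ vec (n2 : ℤ), EE l q.1 * EE l q.2 * cl q.1 q.2 := by
    unfold Fi
    simp only [sum_mul_sum]
    rw [sum_product, sum_comm]
    refine sum_congr rfl fun v _ => ?_
    rw [sum_comm]
    refine sum_congr rfl fun w _ => ?_
    unfold cl
    rw [mul_sum]
    refine sum_congr rfl fun i _ => ?_
    ring
  rw [e1]
  have e2 : ∑ q ∈ vec (n1 : ℤ) ×ˢ vec (n2 : ℤ), EE l q.1 * EE l q.2 * cl q.1 q.2 =
      ∑ q ∈ (vec (n1 : ℤ) ×ˢ vec (n2 : ℤ)).filter (fun q => ip q.1 q.2 ∈ s),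
        EE l q.1 * EE l q.2 * cl q.1 q.2 := by
    symm
    apply sum_subset (filter_subset _ _)
    intro q hq hq'
    rw [mem_product, mem_vec, mem_vec] at hq
    rw [mem_filter, mem_product, mem_vec, mem_vec] at hq'
    have : cl q.1 q.2 = 0 := by
      by_contra h
      exact hq' ⟨hq, hs _ _ hq.1 hq.2 h⟩
    rw [this, mul_zero]
  rw [e2]
  rw [← sum_fiberwise_of_maps_to (t := s) (g := fun q : V3 × V3 => ip q.1 q.2)
    (fun q hq => (mem_filter.1 hq).2)]
  refine sum_congr rfl fun t ht => ?_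
  rw [mul_sum, filter_filter]
  have e3 : (vec (n1 : ℤ) ×ˢ vec (n2 : ℤ)).filter (fun q => ip q.1 q.2 ∈ s ∧ ip q.1 q.2 = t) =
      (vec (n1 : ℤ) ×ˢ vec (n2 : ℤ)).filter (fun q => ip q.1 q.2 = t) := by
    refine filter_congr fun q _ => ⟨fun h => h.2, fun h => ⟨by rw [h]; exact ht, h⟩⟩
  rw [e3]
  refine sum_congr rfl fun q hq => ?_
  rw [← (mem_filter.1 hq).2, ← oo_mul]
  unfold EE
  ring

end Pool.Agent.N971.B15
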