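import Pool.Agent.N971.B15.E3

/-!
# BILJ15n: signed sums over pairs of vectors with a common isotropic line modulo `5`, `l ∣ t`
-/

set_option autoImplicit false

namespace Pool.Agent.N971.B15

open Finset
open Pool.Agent.N969.P15 (V3)
open Pool.Agent.N877.P21 (ip vec cp)
open Pool.Agent.N844.P17G (Iso sig)
open Pool.Agent.N970.Sgn
open Pool.Agent.N973.P15G (L6 O6 Sp5 lr5)
open Pool.Agent.N218.P21 (mem_vec)
open Pool.Agent.N969.RQ (cp5)

section

variable {l : ℕ} [hl : Fact l.Prime] (h2 : l ≠ 2) (h3 : l ≠ 3)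

theorem L6_comb (i : Fin 6) (c m a b x y z u : ℤ) :
    L6 i (c * a + m * y) (c * b + m * z) (c * x + m * u) = c * L6 i a b x + m * L6 i y z u := by
  fin_cases i <;> simp [L6] <;> ring

theorem O6_comb (i : Fin 6) {c m : ℤ} (hc : (5 : ℤ) ∣ c) (hm : ¬ (5 : ℤ) ∣ m) (w x : V3) :
    O6 i (fun j => c * w j + m * x j) ↔ O6 i x := by
  unfold O6
  simp only [L6_comb]
  have h1 : (5 : ℤ) ∣ c * L6 i (w 0) (w 1) (w 2) := hc.mul_right _
  rw [dvd_add_right h1]
  constructor
  · intro h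
    rcases (show Prime (5 : ℤ) by exact_mod_cast (Nat.prime_iff_prime_int.1
      (by norm_num : Nat.Prime 5))).dvd_or_dvd h with h4 | h4
    · exact absurd h4 hm
    · exact h4
  · intro h
    exact h.mul_left _

theorem cl_comb {c m : ℤ} (hc : (5 : ℤ) ∣ c) (hm : ¬ (5 : ℤ) ∣ m) (w x : V3) :
    cl (fun j => c * w j + m * x j) w = cl w x := by
  rw [cl_comm w x]
  unfold cl
  refine sum_congr rfl fun i _ => ?_
  simp only [O6_comb i hc hm]

/-- the pairs with `v = c w` modulo `l` -/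
noncomputable def PP (l n1 n2 : ℕ) (t c : ℤ) : Finset (V3 × V3) :=
  (vec n1 ×ˢ vec n2).filter fun q => ip q.1 q.2 = t ∧ ∀ i, (l : ℤ) ∣ q.1 i - c * q.2 i

omit hl in
theorem PP_mod {n1 n2 : ℕ} {t c c' : ℤ} (h : (l : ℤ) ∣ c - c') :
    PP l n1 n2 t c = PP l n1 n2 t c' := by
  unfold PP
  refine filter_congr fun q _ => and_congr_right fun _ => forall_congr' fun i => ?_
  have e : q.1 i - c' * q.2 i = (q.1 i - c * q.2 i) + (c - c') * q.2 i := by ring
  rw [e]
  exact (dvd_add_left (h.mul_right _)).symm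

theorem jac5 {n : ℕ} : (jacobiSym n 5 = 1 ↔ Sp5 n) ∧
    (jacobiSym n 5 = -1 ↔ (n % 5 = 2 ∨ n % 5 = 3)) := by
  rw [jacobiSym.mod_left]
  have e : (n : ℤ) % ((5 : ℕ) : ℤ) = ((n % 5 : ℕ) : ℤ) := by push_cast; rfl
  rw [e]
  unfold Sp5
  have hn : n % 5 < 5 := Nat.mod_lt _ (by norm_num)
  generalize n % 5 = k at hn
  interval_cases k <;> norm_num

/-- the number of common lines of the pairs with `v = c w` modulo `l` -/
theorem NN {d e m : ℕ} {t c : ℤ} (h5c : (5 : ℤ) ∣ c) (hr : (l : ℤ) ∣ e * c ^ 2 - 2 * t * c + d)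
    (hl5 : jacobiSym l 5 = -1) (hd5 : jacobiSym d 5 = -1) (he5 : jacobiSym e 5 = -1)
    (hs : Squarefree (e * l)) (h4 : (e * l) % 4 = 3) (h3e : ¬ 3 ∣ e * l)
    (hm0 : 0 < m) (h5m : 5 ∣ m) (hm : (m : ℤ) = d * e - t ^ 2) :
    ∑ q ∈ PP l (d * l) (e * l) (l * t) c, cl q.1 q.2 =
      24 * (m.factorization 5 * lr5 (e * l) m) := by
  have hl0 : (l : ℤ) ≠ 0 := by exact_mod_cast hl.out.ne_zero
  have hlp : (0 : ℤ) < l := by exact_mod_cast hl.out.pos
  obtain ⟨nx, hnx⟩ := hr
  have hdet : (e : ℤ) * l * nx - (t - c * e) ^ 2 = m := by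
    rw [hm]
    linear_combination (-(e : ℤ)) * hnx
  have he0 : (0 : ℤ) < e := by
    have : 0 < e := by
      rcases Nat.eq_zero_or_pos e with h | h
      · subst h; omega
      · exact h
    exact_mod_cast this
  have hx0 : 0 < nx := by
    have h1 : 0 < (e : ℤ) * l * nx := by
      have h4 : (0 : ℤ) < m := by exact_mod_cast hm0
      nlinarith [sq_nonneg (t - c * e)]
    exact (pos_iff_pos_of_mul_pos h1).1 (mul_pos he0 hlp)
  obtain ⟨n, rfl⟩ := Int.eq_ofNat_of_zero_le hx0.le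
  have hl5' : ¬ (5 : ℤ) ∣ l := by
    have := (jac5 (n := l)).2.1 hl5
    omega
  have hn5 : Sp5 n := by
    rw [← jac5.1]
    have h6 : jacobiSym ((l * n : ℕ) : ℤ) 5 = jacobiSym d 5 := by
      apply jacobiSym.mod_left'
      refine (Int.modEq_iff_dvd.2 ?_)
      obtain ⟨k, hk⟩ := h5c
      refine ⟨-(5 * e * k ^ 2) + 2 * t * k, ?_⟩
      push_cast
      have : (l : ℤ) * n = e * c ^ 2 - 2 * t * c + d := hnx.symm
      rw [this, hk]
      ring
    push_cast at h6
    rw [jacobiSym.mul_left, hl5, hd5] at h6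
    linarith
  have hel5 : Sp5 (e * l) := by
    rw [← jac5.1]
    push_cast
    rw [jacobiSym.mul_left, hl5, he5]
    norm_num
  have key : ∑ q ∈ PP l (d * l) (e * l) (l * t) c, cl q.1 q.2 =
      ∑ q ∈ (vec ((e * l : ℕ) : ℤ) ×ˢ vec (n : ℤ)).filter
        (fun q => ip q.1 q.2 = t - c * e), cl q.1 q.2 := by
    symm
    refine sum_bij (fun q _ => ((fun j => c * q.1 j + l * q.2 j), q.1)) ?_ ?_ ?_ ?_
    · rintro ⟨w, x⟩ hq
      rw [mem_filter, mem_product, mem_vec, mem_vec] at hq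
      obtain ⟨⟨hw, hx⟩, hwx⟩ := hq
      simp only at hw hx hwx
      unfold PP
      rw [mem_filter, mem_product, mem_vec, mem_vec]
      refine ⟨⟨?_, hw⟩, ?_, fun i => ?_⟩
      · show ip (fun j => c * w j + l * x j) (fun j => c * w j + l * x j) = (d * l : ℕ)
        have e1 : ip (fun j => c * w j + l * x j) (fun j => c * w j + l * x j) =
            c ^ 2 * ip w w + 2 * (c * l) * ip w x + l ^ 2 * ip x x := by
          unfold ip; ring
        rw [e1, hw, hx, hwx]
        push_cast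
        linear_combination (-(l : ℤ)) * hnx
      · show ip (fun j => c * w j + l * x j) w = l * t
        have e1 : ip (fun j => c * w j + l * x j) w = c * ip w w + l * ip w x := by
          unfold ip; ring
        rw [e1, hw, hwx]
        push_cast
        ring
      · show (l : ℤ) ∣ c * w i + l * x i - c * w i
        exact ⟨x i, by ring⟩
    · rintro ⟨w, x⟩ _ ⟨w', x'⟩ _ h
      simp only [Prod.mk.injEq] at h
      obtain ⟨h1, rfl⟩ := h
      have : x = x' := by
        funext i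
        have h3 : c * w i + l * x i = c * w i + l * x' i := congrFun h1 i
        exact mul_left_cancel₀ hl0 (by linarith)
      rw [this]
    · rintro ⟨v, w⟩ hq
      unfold PP at hq
      rw [mem_filter, mem_product, mem_vec, mem_vec] at hq
      obtain ⟨⟨hv, hw⟩, hvw, hc⟩ := hq
      simp only at hv hw hvw hc
      have h4 : ∀ i, ∃ x : ℤ, v i = c * w i + l * x := by
        intro i
        obtain ⟨x, hx⟩ := hc i
        exact ⟨x, by linarith⟩
      choose x hx using h4
      have hvx : v = fun j => c * w j + l * x j := funext hx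
      refine ⟨(w, x), ?_, ?_⟩
      · rw [mem_filter, mem_product, mem_vec, mem_vec]
        have e1 : ip v w = c * ip w w + l * ip w x := by
          rw [hvx]; unfold ip; ring
        have e2 : ip v v = c ^ 2 * ip w w + 2 * (c * l) * ip w x + l ^ 2 * ip x x := by
          rw [hvx]; unfold ip; ring
        have h5 : ip w x = t - c * e := by
          apply mul_left_cancel₀ hl0
          rw [hvw, hw] at e1
          push_cast at e1
          linear_combination -e1
        refine ⟨⟨hw, ?_⟩, h5⟩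
        show ip x x = n
        apply mul_left_cancel₀ (pow_ne_zero 2 hl0)
        rw [hv, hw, h5] at e2
        push_cast at e2
        linear_combination (l : ℤ) * hnx - e2
      · rw [hvx]
    · rintro ⟨w, x⟩ _
      exact (cl_comb h5c hl5' w x).symm
  rw [key, sum_cl hn5, if_pos]
  · exact Pool.Agent.N973.P15G.cp5_odd Pool.Agent.N878.PC21.t_PC hs h4 hel5 hn5 h3e hm0 h5m
      (by rw [← hdet]; push_cast; ring)
  · have : ((e * l : ℕ) : ℤ) * n - (t - c * e) ^ 2 = m := by rw [← hdet]; push_cast; ring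
    rw [this]
    exact_mod_cast h5m

include h2 h3

/-- the signed sum over the pairs with `l ∣ t` vanishes if `(D / l) = -1` -/
theorem orth {d e m : ℕ} {t : ℤ} (hld : ¬ l ∣ d) (hle : ¬ l ∣ e)
    (hl5 : jacobiSym l 5 = -1) (hd5 : jacobiSym d 5 = -1) (he5 : jacobiSym e 5 = -1)
    (hs : Squarefree (e * l)) (h4 : (e * l) % 4 = 3) (h3e : ¬ 3 ∣ e * l)
    (hm0 : 0 < m) (h5m : 5 ∣ m) (hm : (m : ℤ) = d * e - t ^ 2)
    (hDl : jacobiSym ((d * e : ℕ) : ℤ) l = -1) :
    ∑ q ∈ (vec ((d * l : ℕ) : ℤ) ×ˢ vec ((e * l : ℕ) : ℤ)).filter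
      (fun q => ip q.1 q.2 = l * t), psi ip l q.1 * psi ip l q.2 * cl q.1 q.2 = 0 := by
  have hK := nK (l := l) h2 h3
  have hlp : Prime (l : ℤ) := Nat.prime_iff_prime_int.1 hl.out
  by_cases hne : ((vec ((d * l : ℕ) : ℤ) ×ˢ vec ((e * l : ℕ) : ℤ)).filter
      (fun q => ip q.1 q.2 = l * t)).Nonempty
  swap
  · rw [not_nonempty_iff_eq_empty.1 hne, sum_empty]
  obtain ⟨⟨v0, w0⟩, hq⟩ := hne
  rw [mem_filter, mem_product, mem_vec, mem_vec] at hq
  obtain ⟨⟨hv0, hw0⟩, hvw0⟩ := hq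
  simp only at hv0 hw0 hvw0
  have iv : ∀ {v : V3}, ip v v = (d * l : ℕ) → Iso ip l v := fun h => iso_mul frm hld h
  have iw : ∀ {w : V3}, ip w w = (e * l : ℕ) → Iso ip l w := fun h => iso_mul frm hle h
  obtain ⟨c1, hc1, hp1⟩ := prop_ex frm h2 hK (iv hv0) (iw hw0)
    (by rw [hvw0]; exact dvd_mul_right _ _)
  have r1 := root_of frm hv0 hw0 hvw0 hp1
  -- the other root
  have hleZ : ¬ (l : ℤ) ∣ e := fun h => hle (by exact_mod_cast h)
  obtain ⟨a, b, hab⟩ : IsCoprime (e : ℤ) (l : ℤ) :=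
    ((Prime.coprime_iff_not_dvd hlp).2 hleZ).symm
  obtain ⟨c2, hc2⟩ : ∃ c2 : ℤ, c2 = 2 * t * a - c1 := ⟨_, rfl⟩
  have hss : (l : ℤ) ∣ e * (c1 + c2) - 2 * t := by
    rw [hc2]
    exact ⟨-(2 * t * b), by linear_combination (2 * t) * hab⟩
  have r2 : (l : ℤ) ∣ e * c2 ^ 2 - 2 * t * c2 + d := by
    have e1 : e * c2 ^ 2 - 2 * t * c2 + d = (e * c1 ^ 2 - 2 * t * c1 + d) +
        (c2 - c1) * (e * (c1 + c2) - 2 * t) := by ring
    rw [e1]
    exact dvd_add r1 (hss.mul_left _)
  have hpr : (l : ℤ) ∣ (e : ℤ) ^ 2 * (c1 * c2) - (d * e : ℕ) := by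
    have e1 : (e : ℤ) ^ 2 * (c1 * c2) - (d * e : ℕ) =
        (e : ℤ) * (c1 * (e * (c1 + c2) - 2 * t)) - e * (e * c1 ^ 2 - 2 * t * c1 + d) := by
      push_cast; ring
    rw [e1]
    exact dvd_sub ((hss.mul_left _).mul_left _) (r1.mul_left _)
  have hJ : jacobiSym c1 l * jacobiSym c2 l = -1 := by
    have e1 : jacobiSym ((e : ℤ) ^ 2 * (c1 * c2)) l = jacobiSym ((d * e : ℕ) : ℤ) l := by
      apply jacobiSym.mod_left'
      exact (Int.modEq_iff_dvd.2 (by
        have := (dvd_neg.2 hpr)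
        have e2 : ((d * e : ℕ) : ℤ) - (e : ℤ) ^ 2 * (c1 * c2) =
          -((e : ℤ) ^ 2 * (c1 * c2) - (d * e : ℕ)) := by ring
        rw [e2]; exact this))
    rw [hDl, jacobiSym.mul_left, jacobiSym.mul_left, jacobiSym.sq_one', one_mul] at e1
    · exact e1
    · rw [Int.gcd_natCast_natCast]
      exact ((Nat.Prime.coprime_iff_not_dvd hl.out).2 hle).symm
  have hne12 : ¬ (l : ℤ) ∣ c1 - c2 := by
    intro h
    have e1 : jacobiSym c1 l = jacobiSym c2 l := by
      apply jacobiSym.mod_left'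
      exact (Int.modEq_iff_dvd.2 (by
        have := dvd_neg.2 h
        rwa [neg_sub] at this))
    rw [e1] at hJ
    nlinarith [mul_self_nonneg (jacobiSym c2 l)]
  -- splitting
  have hsplit : (vec ((d * l : ℕ) : ℤ) ×ˢ vec ((e * l : ℕ) : ℤ)).filter
      (fun q => ip q.1 q.2 = l * t) =
      PP l (d * l) (e * l) (l * t) c1 ∪ PP l (d * l) (e * l) (l * t) c2 := by
    ext ⟨v, w⟩
    unfold PP
    rw [mem_union, mem_filter, mem_filter, mem_filter, mem_product, mem_vec, mem_vec]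
    constructor
    · rintro ⟨⟨hv, hw⟩, hvw⟩
      obtain ⟨c, -, hp⟩ := prop_ex frm h2 hK (iv hv) (iw hw) (by
        simp only at hvw
        rw [hvw]; exact dvd_mul_right _ _)
      have r := root_of frm hv hw hvw hp
      have e1 : (l : ℤ) ∣ (c - c1) * (c - c2) := by
        have e2 : (l : ℤ) ∣ e * ((c - c1) * (c - c2)) := by
          have e3 : e * ((c - c1) * (c - c2)) = (e * c ^ 2 - 2 * t * c + d) -
              (c - c1) * (e * (c1 + c2) - 2 * t) - (e * c1 ^ 2 - 2 * t * c1 + d) := by ring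
          rw [e3]
          exact dvd_sub (dvd_sub r (hss.mul_left _)) r1
        rcases hlp.dvd_or_dvd e2 with h | h
        · exact absurd h hleZ
        · exact h
      rcases hlp.dvd_or_dvd e1 with h | h
      · left
        refine ⟨⟨hv, hw⟩, hvw, fun i => ?_⟩
        have e4 : v i - c1 * w i = (v i - c * w i) + (c - c1) * w i := by ring
        show (l : ℤ) ∣ v i - c1 * w i
        rw [e4]
        exact dvd_add (hp i) (h.mul_right _)
      · right
        refine ⟨⟨hv, hw⟩, hvw, fun i => ?_⟩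
        have e4 : v i - c2 * w i = (v i - c * w i) + (c - c2) * w i := by ring
        show (l : ℤ) ∣ v i - c2 * w i
        rw [e4]
        exact dvd_add (hp i) (h.mul_right _)
    · rintro (h | h)
      · exact ⟨h.1, h.2.1⟩
      · exact ⟨h.1, h.2.1⟩
  have hdisj : Disjoint (PP l (d * l) (e * l) (l * t) c1) (PP l (d * l) (e * l) (l * t) c2) := by
    rw [disjoint_left]
    rintro ⟨v, w⟩ ha hb
    unfold PP at ha hb
    rw [mem_filter, mem_product, mem_vec, mem_vec] at ha hb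
    obtain ⟨j, hj⟩ := (iw ha.1.2).2
    have h5 : (l : ℤ) ∣ (c1 - c2) * w j := by
      have e4 : (c1 - c2) * w j = (v j - c2 * w j) - (v j - c1 * w j) := by ring
      rw [e4]
      exact dvd_sub (hb.2.2 j) (ha.2.2 j)
    rcases hlp.dvd_or_dvd h5 with h | h
    · exact hne12 h
    · exact hj h
  have hpart : ∀ c : ℤ, (l : ℤ) ∣ e * c ^ 2 - 2 * t * c + d →
      ∑ q ∈ PP l (d * l) (e * l) (l * t) c, psi ip l q.1 * psi ip l q.2 * cl q.1 q.2 =
        jacobiSym c l * (24 * (m.factorization 5 * lr5 (e * l) m)) := by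
    intro c hr
    have e5 : ∀ q ∈ PP l (d * l) (e * l) (l * t) c,
        psi ip l q.1 * psi ip l q.2 * cl q.1 q.2 = jacobiSym c l * cl q.1 q.2 := by
      rintro ⟨v, w⟩ hq
      unfold PP at hq
      rw [mem_filter, mem_product, mem_vec, mem_vec] at hq
      obtain ⟨⟨hv, hw⟩, hvw, hc⟩ := hq
      simp only at hv hw hvw hc ⊢
      rw [psi_mul frm h2 hK (iv hv) (iw hw), sig_prp frm h2 hK (iv hv) (iw hw) (by
        rw [hvw]; exact dvd_mul_right _ _) hc]
    rw [sum_congr rfl e5, ← mul_sum]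
    congr 1
    -- a representative divisible by `5`
    obtain ⟨k, hk⟩ : ∃ k : ℤ, (5 : ℤ) ∣ c + l * k := by
      have h5l : IsCoprime (l : ℤ) 5 := by
        have h6 := (jac5 (n := l)).2.1 hl5
        have h7 : Nat.Coprime l 5 := by
          rw [Nat.coprime_comm]
          exact (Nat.Prime.coprime_iff_not_dvd (by norm_num)).2 (by omega)
        exact_mod_cast Nat.isCoprime_iff_coprime.2 h7
      obtain ⟨x, y, hxy⟩ := h5l
      exact ⟨-(c * x), ⟨c * y, by linear_combination (-c) * hxy⟩⟩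
    rw [PP_mod (c' := c + l * k) ⟨-k, by ring⟩]
    refine NN hk ?_ hl5 hd5 he5 hs h4 h3e hm0 h5m hm
    have e6 : e * (c + l * k) ^ 2 - 2 * t * (c + l * k) + d = (e * c ^ 2 - 2 * t * c + d) +
        l * (2 * e * c * k + e * l * k ^ 2 - 2 * t * k) := by ring
    rw [e6]
    exact dvd_add hr (dvd_mul_right _ _)
  rw [hsplit, sum_union hdisj, hpart c1 r1, hpart c2 r2]
  have hsum : jacobiSym c1 l + jacobiSym c2 l = 0 := by
    rcases jacobiSym.trichotomy c1 l with h | h | h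
    · rw [h, zero_mul] at hJ; norm_num at hJ
    · rw [h] at hJ ⊢; linarith
    · rw [h] at hJ ⊢; linarith
  rw [← add_mul, hsum, zero_mul]

end

end Pool.Agent.N971.B15
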